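import Mathlib
import Pool.Agent.H6.Win.ZetaLoc
import Pool.Agent.H52.RK.Grow
import Pool.Agent.H52.RK.HlocG

/-!
# VKF: the Vinogradov-Korobov zero-free region

Landau's argument in discs of radius `r = (1/8) (loglog t / log t)^(2/3)` with the growth bound `grow`
(which rests on `H76.VK.richert`).  The first four lemmas are copied from `H48/UP/Classical.lean`.
-/

set_option autoImplicit false

open Complex Metric Set Filter Topology Real MeasureTheory
open scoped ArithmeticFunction.vonMangoldt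

namespace Pool.Agent.H52.ZR

open Pool.Agent.H6 Pool.Agent.H6.Win Pool.Agent.H76.CR Pool.Agent.H52.RK

/-- the Dirichlet series of the von Mangoldt function -/
private noncomputable def lam (s : ℂ) : ℂ := LSeries (fun n => ((Λ n : ℝ) : ℂ)) s

private lemma term_re (σ t : ℝ) (n : ℕ) (hn : n ≠ 0) :
    LSeries.term (fun n => ((Λ n : ℝ) : ℂ)) ((σ : ℂ) + t * I) n =
      ((Λ n * (n : ℝ) ^ (-σ) : ℝ) : ℂ) * ((n : ℂ) ^ (-(t * I))) := by
  have hn0 : (n : ℂ) ≠ 0 := by exact_mod_cast hn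
  rw [LSeries.term_of_ne_zero hn, div_eq_mul_inv, ← Complex.cpow_neg, neg_add,
    Complex.cpow_add _ _ hn0]
  push_cast
  rw [Complex.ofReal_cpow (by positivity)]
  push_cast
  ring

private lemma lam_comb {σ : ℝ} (hσ : 1 < σ) (t : ℝ) :
    0 ≤ 3 * (lam (σ : ℂ)).re + 4 * (lam ((σ : ℂ) + t * I)).re +
      (lam ((σ : ℂ) + (2 * t : ℝ) * I)).re := by
  have hs : ∀ u : ℝ, LSeriesSummable (fun n => ((Λ n : ℝ) : ℂ)) ((σ : ℂ) + u * I) := by
    intro u
    apply ArithmeticFunction.LSeriesSummable_vonMangoldt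
    simpa using hσ
  have e0 : (σ : ℂ) = (σ : ℂ) + (0 : ℝ) * I := by simp
  have hre : ∀ u : ℝ, (lam ((σ : ℂ) + u * I)).re =
      ∑' n, (LSeries.term (fun n => ((Λ n : ℝ) : ℂ)) ((σ : ℂ) + u * I) n).re := by
    intro u
    unfold lam LSeries
    exact Complex.re_tsum (hs u)
  have hsr : ∀ u : ℝ, Summable fun n =>
      (LSeries.term (fun n => ((Λ n : ℝ) : ℂ)) ((σ : ℂ) + u * I) n).re := by
    intro u
    exact (Complex.hasSum_re (hs u).hasSum).summable
  have hre0 : (lam (σ : ℂ)).re =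
      ∑' n, (LSeries.term (fun n => ((Λ n : ℝ) : ℂ)) ((σ : ℂ) + (0 : ℝ) * I) n).re := by
    rw [← hre 0, ← e0]
  rw [hre0, add_assoc, hre t, hre (2 * t), ← tsum_mul_left, ← tsum_mul_left,
    ← (((hsr t).mul_left 4).tsum_add (hsr (2 * t))),
    ← (((hsr 0).mul_left 3).tsum_add (((hsr t).mul_left 4).add (hsr (2 * t))))]
  apply tsum_nonneg
  intro n
  rcases eq_or_ne n 0 with rfl | hn
  · simp
  rw [term_re _ _ _ hn, term_re _ _ _ hn, term_re _ _ _ hn]
  have hn0 : (n : ℂ) ≠ 0 := by exact_mod_cast hn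
  have h0 : (n : ℂ) ^ (-(((0 : ℝ) : ℂ) * I)) = 1 := by simp
  have h2 : (n : ℂ) ^ (-(((2 * t : ℝ) : ℂ) * I)) = ((n : ℂ) ^ (-((t : ℂ) * I))) ^ 2 := by
    rw [← Complex.cpow_nat_mul]
    congr 1
    push_cast
    ring
  have h1 : ‖(n : ℂ) ^ (-((t : ℂ) * I))‖ = 1 := by
    have := Complex.norm_natCast_cpow_of_pos (Nat.pos_of_ne_zero hn) (-((t : ℂ) * I))
    rw [this]
    simp
  rw [h0, h2, Complex.re_ofReal_mul, Complex.re_ofReal_mul, Complex.re_ofReal_mul]
  set z : ℂ := (n : ℂ) ^ (-((t : ℂ) * I))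
  have h3 : z.re ^ 2 + z.im ^ 2 = 1 := by
    have := Complex.sq_norm z
    rw [h1, Complex.normSq_apply] at this
    nlinarith
  have h4 : (z ^ 2).re = z.re ^ 2 - z.im ^ 2 := by
    rw [pow_two, Complex.mul_re]
    ring
  have h5 : 0 ≤ Λ n * (n : ℝ) ^ (-σ) :=
    mul_nonneg ArithmeticFunction.vonMangoldt_nonneg (by positivity)
  rw [h4, Complex.one_re]
  have h6 : 3 * (Λ n * (n : ℝ) ^ (-σ) * 1) + (4 * (Λ n * (n : ℝ) ^ (-σ) * z.re) +
      Λ n * (n : ℝ) ^ (-σ) * (z.re ^ 2 - z.im ^ 2)) =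
      Λ n * (n : ℝ) ^ (-σ) * (2 * (1 + z.re) ^ 2) := by
    have : z.im ^ 2 = 1 - z.re ^ 2 := by linarith
    rw [this]
    ring
  rw [h6]
  positivity

private lemma logDeriv_zetaPole {s : ℂ} (hs : 1 < s.re) :
    deriv zetaPole s / zetaPole s = 1 / (s - 1) - lam s := by
  have hs1 : s ≠ 1 := by intro h; rw [h, one_re] at hs; exact lt_irrefl _ hs
  have h2 : zetaPole =ᶠ[𝓝 s] fun s ↦ (s - 1) * riemannZeta s := by
    filter_upwards [isOpen_ne.mem_nhds hs1] with z hz
    exact zetaPole_of_ne hz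
  rw [h2.deriv_eq, zetaPole_of_ne hs1]
  have h3 : HasDerivAt (fun s ↦ (s - 1) * riemannZeta s)
      (1 * riemannZeta s + (s - 1) * deriv riemannZeta s) s :=
    ((hasDerivAt_id s).sub_const 1).mul (differentiableAt_riemannZeta hs1).hasDerivAt
  rw [h3.deriv]
  have h4 : lam s = - deriv riemannZeta s / riemannZeta s :=
    ArithmeticFunction.LSeries_vonMangoldt_eq_deriv_riemannZeta_div hs
  rw [h4]
  have h5 := riemannZeta_ne_zero_of_one_lt_re hs
  have h6 : s - 1 ≠ 0 := sub_ne_zero.mpr hs1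
  field_simp
  ring

/-- `-ζ'/ζ(σ) ≤ 1/(σ-1) + C` -/
private lemma lam_real : ∃ C : ℝ, 0 < C ∧ ∀ σ : ℝ, 1 < σ → σ ≤ 2 →
    (lam (σ : ℂ)).re ≤ 1 / (σ - 1) + C := by
  have hc : ContinuousOn (fun x : ℝ => deriv zetaPole (x : ℂ) / zetaPole (x : ℂ)) (Icc 1 2) := by
    apply ContinuousOn.div
    · have : Continuous (deriv zetaPole) := by
        have h := zetaPole_differentiable.contDiff (n := 1)
        exact h.continuous_deriv le_rfl
      exact (this.comp continuous_ofReal).continuousOn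
    · exact (zetaPole_differentiable.continuous.comp continuous_ofReal).continuousOn
    · intro x hx
      exact zetaPole_ne_zero_of_one_le (by simpa using hx.1)
  obtain ⟨B, hB⟩ := isCompact_Icc.exists_bound_of_continuousOn hc
  refine ⟨max B 1, by positivity, fun σ h1 h2 => ?_⟩
  have h3 := hB σ ⟨h1.le, h2⟩
  have h4 := logDeriv_zetaPole (s := (σ : ℂ)) (by simpa using h1)
  have h5 : lam (σ : ℂ) = 1 / ((σ : ℂ) - 1) - deriv zetaPole σ / zetaPole σ := by
    rw [h4]; ring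
  rw [h5, Complex.sub_re]
  have h6 : (1 / ((σ : ℂ) - 1)).re = 1 / (σ - 1) := by
    have : (1 / ((σ : ℂ) - 1)) = ((1 / (σ - 1) : ℝ) : ℂ) := by push_cast; ring
    rw [this, Complex.ofReal_re]
  rw [h6]
  have h7 := (Complex.abs_re_le_norm (deriv zetaPole (σ : ℂ) / zetaPole σ)).trans h3
  rw [abs_le] at h7
  have := le_max_left B 1
  linarith [h7.1]

/-- real part of `1/(z-u)` for `z` to the right of `u` -/
private lemma re_inv_nonneg {z u : ℂ} (h : u.re ≤ z.re) (k : ℕ) :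
    0 ≤ ((k : ℂ) / (z - u)).re := by
  have : ((k : ℂ) / (z - u)).re = k * (z.re - u.re) / Complex.normSq (z - u) := by
    rw [Complex.div_re]
    simp
  rw [this]
  have h1 := Complex.normSq_nonneg (z - u)
  have h2 : 0 ≤ z.re - u.re := by linarith
  positivity


/-- Landau's lemma at the height of a zero and elsewhere -/
private lemma landau : ∃ C : ℝ, 0 < C ∧ ∀ a r t G : ℝ, 0 < a → 0 < r → 0 < G → 1 ≤ |t| →
    (∀ z ∈ closedBall (pt a t) ((1 + 1) * r),
        ‖zetaPole z‖ ≤ Real.exp G * ‖zetaPole (pt a t)‖) →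
    (lam (pt a t)).re ≤ 1 + C * G / r ∧
    ∀ ρ : ℂ, zetaPole ρ = 0 → ρ.im = t → 1 + a - ρ.re ≤ r →
      (lam (pt a t)).re ≤ 1 + C * G / r - 1 / (1 + a - ρ.re) := by
  obtain ⟨C, hC, h⟩ := exists_HG (η := 1) one_pos
  refine ⟨C, hC, fun a r t G ha hr hG ht hg => ?_⟩
  obtain ⟨S, H, hS1, hS2, hS3, hS4, hS5, hS6⟩ := h a r t G ha hr hG hg
  have hre : (pt a t).re = 1 + a := by simp [pt]
  have him : (pt a t).im = t := by simp [pt]
  have h1 : 1 < (pt a t).re := by rw [hre]; linarith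
  have hne : zetaPole (pt a t) ≠ 0 := zetaPole_ne_zero_of_one_le h1.le
  have h2 := hS6 (pt a t) (mem_ball_self (by positivity)) hne
  rw [logDeriv_zetaPole h1] at h2
  have h3 : lam (pt a t) = 1 / (pt a t - 1) - H (pt a t) - ∑ u ∈ S, (zord u : ℂ) / (pt a t - u) := by
    linear_combination -h2
  have h4 : (1 / (pt a t - 1)).re ≤ 1 := by
    have h6 : ‖1 / (pt a t - 1)‖ ≤ 1 := by
      rw [norm_div, norm_one]
      have h7 := Complex.abs_im_le_norm (pt a t - 1)
      rw [Complex.sub_im, him, Complex.one_im, sub_zero] at h7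
      rw [div_le_one (by linarith)]
      linarith
    exact (Complex.re_le_norm _).trans h6
  have h5 : -(H (pt a t)).re ≤ C * G / r := by
    have h6 := (Complex.abs_re_le_norm _).trans (hS5 (pt a t) (mem_closedBall_self hr.le))
    linarith [(abs_le.1 h6).1]
  have h6 : ∀ v ∈ S, 0 ≤ ((zord v : ℂ) / (pt a t - v)).re := by
    intro v hv
    apply re_inv_nonneg
    by_contra h7
    rw [hre, not_le] at h7
    exact zetaPole_ne_zero_of_one_le (s := v) (by linarith) ((hS1 v).1 hv).2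
  have h7 : (lam (pt a t)).re = (1 / (pt a t - 1)).re - (H (pt a t)).re -
      ∑ u ∈ S, ((zord u : ℂ) / (pt a t - u)).re := by
    rw [h3, Complex.sub_re, Complex.sub_re, Complex.re_sum]
  refine ⟨?_, fun ρ hρ hρt hρr => ?_⟩
  · have := Finset.sum_nonneg h6
    linarith
  · have h8 : ρ.re < 1 := by
      by_contra h9
      exact zetaPole_ne_zero_of_one_le (not_lt.1 h9) hρ
    have e1 : pt a t - ρ = ((1 + a - ρ.re : ℝ) : ℂ) := by
      apply Complex.ext
      · rw [Complex.sub_re, hre, Complex.ofReal_re]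
      · rw [Complex.sub_im, him, Complex.ofReal_im, hρt, sub_self]
    have hmem : ρ ∈ S := by
      rw [hS1]
      refine ⟨?_, hρ⟩
      rw [mem_closedBall, dist_comm, dist_eq_norm, e1, Complex.norm_real, Real.norm_eq_abs,
        abs_of_pos (by linarith)]
      linarith
    have h9 := Finset.single_le_sum (f := fun v => ((zord v : ℂ) / (pt a t - v)).re) h6 hmem
    have h10 : 1 / (1 + a - ρ.re) ≤ ((zord ρ : ℂ) / (pt a t - ρ)).re := by
      rw [e1]
      have e2 : ((zord ρ : ℂ) / ((1 + a - ρ.re : ℝ) : ℂ)) = (((zord ρ : ℝ) / (1 + a - ρ.re) : ℝ) : ℂ) := by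
        push_cast
        rfl
      rw [e2, Complex.ofReal_re]
      have h11 : (1 : ℝ) ≤ zord ρ := by exact_mod_cast zord_pos hρ
      have h12 : 0 < 1 + a - ρ.re := by linarith
      gcongr
    have h11 : ((zord ρ : ℂ) / (pt a t - ρ)).re ≤ ∑ u ∈ S, ((zord u : ℂ) / (pt a t - u)).re := h9
    linarith

/-- the end of the argument -/
private lemma vk_end {a δ x y : ℝ} (ha : 0 < a) (hδ : 0 < δ) (hx : x ≤ 1 / 2)
    (h : 4 * (1 / (a + δ)) ≤ (3 + x) / a) : a / 7 ≤ δ := by
  have h1 : 4 * a ≤ (3 + x) * (a + δ) := by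
    rw [mul_one_div, div_le_div_iff₀ (by linarith) ha] at h
    exact h
  have h2 : (3 + x) * (a + δ) ≤ 7 / 2 * (a + δ) :=
    mul_le_mul_of_nonneg_right (by linarith) (by linarith)
  linarith

/-- the growth in the discs used at height `t` -/
private lemma vk_grow {L l R a a0 u : ℝ} (hl : 1 ≤ l) (hL : L = Real.exp l) (ha0 : 0 < a0)
    (ha0l : Real.log (1 / a0) ≤ l) (hR : R = (l / L) ^ (2 / 3 : ℝ)) (ha : a = a0 * (R / 8 / l))
    (hu1 : Real.log (|u| + 2) ≤ 2 * L) (hu2 : Real.log (|u| + 3) ≤ 2 * L) :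
    R ^ (3 / 2 : ℝ) * Real.log (|u| + 2) + Real.log (Real.log (|u| + 3)) +
        Real.log (1 / a) + 1 ≤ 11 * l := by
  have hL0 : 0 < L := by rw [hL]; positivity
  have hl0 : 0 < l := by linarith
  have hR0 : 0 < R := by rw [hR]; positivity
  have h1 : R ^ (3 / 2 : ℝ) = l / L := by
    rw [hR, ← Real.rpow_mul (by positivity)]
    norm_num
  have h2 : R ^ (3 / 2 : ℝ) * Real.log (|u| + 2) ≤ 2 * l := by
    rw [h1]
    calc l / L * Real.log (|u| + 2) ≤ l / L * (2 * L) := by gcongr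
      _ = 2 * l := by field_simp
  have hlL : Real.log L = l := by rw [hL, Real.log_exp]
  have h3 : Real.log (Real.log (|u| + 3)) ≤ 2 * l := by
    have h4 : 0 < Real.log (|u| + 3) := Real.log_pos (by linarith [abs_nonneg u])
    have h5 := Real.log_le_log h4 hu2
    rw [Real.log_mul (by norm_num) hL0.ne', hlL] at h5
    have h6 : Real.log 2 ≤ 1 := by linarith [Real.log_two_lt_d9]
    linarith
  have h7 : Real.log (1 / a) ≤ 6 * l := by
    have e1 : 1 / a = 1 / a0 * (8 * (l * (1 / R))) := by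
      rw [ha]
      field_simp
    have e2 : Real.log (1 / R) = 2 / 3 * (l - Real.log l) := by
      rw [one_div, Real.log_inv, hR, Real.log_rpow (by positivity), Real.log_div hl0.ne' hL0.ne', hlL]
      ring
    rw [e1, Real.log_mul (by positivity) (by positivity), Real.log_mul (by norm_num) (by positivity),
      Real.log_mul hl0.ne' (by positivity), e2]
    have h8 : Real.log 8 ≤ 3 := by
      have : (8 : ℝ) = 2 ^ 3 := by norm_num
      rw [this, Real.log_pow]
      push_cast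
      linarith [Real.log_two_lt_d9]
    have h9 : 0 ≤ Real.log l := Real.log_nonneg hl
    have h10 : Real.log l ≤ l - 1 := Real.log_le_sub_one_of_pos hl0
    linarith
  linarith

theorem vk : ∃ c T0 : ℝ, 0 < c ∧ Real.exp (Real.exp 1) ≤ T0 ∧ ∀ s : ℂ, riemannZeta s = 0 → T0 ≤ |s.im| →
    s.re ≤ 1 - c / ((Real.log |s.im|) ^ (2 / 3 : ℝ) * (Real.log (Real.log |s.im|)) ^ (1 / 3 : ℝ)) := by
  obtain ⟨C, hC, hlan⟩ := landau
  obtain ⟨C0, hC0, hreal⟩ := lam_real
  obtain ⟨B, hB, hgrow⟩ := grow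
  -- the constants
  obtain ⟨D, hD⟩ : ∃ D : ℝ, D = 3 * C0 + 5 + 5 * C * (11 * B) * 8 := ⟨_, rfl⟩
  have hD5 : 5 ≤ D := by
    rw [hD]
    have : 0 ≤ 5 * C * (11 * B) * 8 := by positivity
    linarith
  obtain ⟨a0, ha0def⟩ : ∃ a0 : ℝ, a0 = 1 / (2 * D) := ⟨_, rfl⟩
  have ha0 : 0 < a0 := by rw [ha0def]; positivity
  have ha01 : a0 ≤ 1 := by
    rw [ha0def, div_le_one (by positivity)]
    linarith
  have hDa : D * a0 = 1 / 2 := by rw [ha0def]; field_simp
  refine ⟨a0 / 56, Real.exp (Real.exp (max 1 (Real.log (1 / a0)))), by positivity,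
    Real.exp_le_exp.2 (Real.exp_le_exp.2 (le_max_left _ _)), fun s hs hst => ?_⟩
  set t : ℝ := |s.im| with ht
  have hT1 : Real.exp (max 1 (Real.log (1 / a0))) + 1 ≤ t := (Real.add_one_le_exp _).trans hst
  have hT2 : max 1 (Real.log (1 / a0)) + 1 ≤ Real.exp (max 1 (Real.log (1 / a0))) :=
    Real.add_one_le_exp _
  have hT3 : 1 ≤ max 1 (Real.log (1 / a0)) := le_max_left _ _
  have ht3 : 3 ≤ t := by linarith
  have ht0 : 0 < t := by linarith
  obtain ⟨L, hLdef⟩ : ∃ L : ℝ, L = Real.log t := ⟨_, rfl⟩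
  have hL1 : Real.exp (max 1 (Real.log (1 / a0))) ≤ L := by
    rw [hLdef, Real.le_log_iff_exp_le ht0]
    exact hst
  have hL2 : 2 ≤ L := by linarith
  have hL0 : 0 < L := by linarith
  obtain ⟨l, hldef⟩ : ∃ l : ℝ, l = Real.log L := ⟨_, rfl⟩
  have hl1 : max 1 (Real.log (1 / a0)) ≤ l := by
    rw [hldef, Real.le_log_iff_exp_le hL0]
    exact hL1
  have hl : 1 ≤ l := (le_max_left _ _).trans hl1
  have hl0 : 0 < l := by linarith
  have hla0 : Real.log (1 / a0) ≤ l := (le_max_right _ _).trans hl1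
  have hLl : L = Real.exp l := by rw [hldef, Real.exp_log hL0]
  have hlL : l ≤ L := by
    rw [hLl]
    linarith [Real.add_one_le_exp l]
  obtain ⟨R, hR⟩ : ∃ R : ℝ, R = (l / L) ^ (2 / 3 : ℝ) := ⟨_, rfl⟩
  have hR0 : 0 < R := by rw [hR]; positivity
  have hR1 : R ≤ 1 := by
    rw [hR]
    exact Real.rpow_le_one (by positivity) (by rw [div_le_one hL0]; exact hlL) (by norm_num)
  obtain ⟨a, ha⟩ : ∃ a : ℝ, a = a0 * (R / 8 / l) := ⟨_, rfl⟩
  have ha0' : 0 < a := by rw [ha]; positivity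
  have hRl : R / 8 / l ≤ 1 / 8 := by
    rw [div_le_iff₀ hl0]
    nlinarith
  have haa0 : a ≤ a0 := by
    rw [ha]
    have : R / 8 / l ≤ 1 := by linarith
    calc a0 * (R / 8 / l) ≤ a0 * 1 := by gcongr
      _ = a0 := mul_one _
  have ha8 : a ≤ 1 / 8 := by
    rw [ha]
    have : 0 ≤ R / 8 / l := by positivity
    nlinarith
  have ha010 : a0 ≤ 1 / 10 := by
    rw [ha0def]
    exact one_div_le_one_div_of_le (by norm_num) (by linarith)
  have haR : a ≤ R / 80 := by
    rw [ha]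
    have h1 : R / 8 / l ≤ R / 8 := div_le_self (by positivity) hl
    have h2 : 0 ≤ R / 8 / l := by positivity
    calc a0 * (R / 8 / l) ≤ 1 / 10 * (R / 8) := by gcongr
      _ = R / 80 := by ring
  -- the lower bound of the radius
  have hscale : a0 / 56 / (L ^ (2 / 3 : ℝ) * l ^ (1 / 3 : ℝ)) = a / 7 := by
    rw [ha, hR, Real.div_rpow hl0.le hL0.le]
    have e1 : l = l ^ (2 / 3 : ℝ) * l ^ (1 / 3 : ℝ) := by
      rw [← Real.rpow_add hl0]
      norm_num
    have hl23 : 0 < l ^ (2 / 3 : ℝ) := by positivity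
    have hl13 : 0 < l ^ (1 / 3 : ℝ) := by positivity
    have hL23 : 0 < L ^ (2 / 3 : ℝ) := by positivity
    have e2 : l ^ (2 / 3 : ℝ) / L ^ (2 / 3 : ℝ) / 8 / l = 1 / (8 * (L ^ (2 / 3 : ℝ) * l ^ (1 / 3 : ℝ))) := by
      rw [div_div, div_div, div_eq_div_iff (by positivity) (by positivity)]
      nth_rewrite 3 [e1]
      ring
    rw [e2]
    field_simp
    norm_num
  rw [← hLdef, ← hldef, hscale]
  -- the zero
  have hs1 : s.re < 1 := by
    by_contra h
    exact riemannZeta_ne_zero_of_one_le_re (not_lt.1 h) hs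
  have hsne : s ≠ 1 := by
    intro h; rw [h, one_re] at hs1; exact lt_irrefl _ hs1
  have hz : zetaPole s = 0 := by rw [zetaPole_of_ne hsne, hs, mul_zero]
  by_contra hcon
  rw [not_le] at hcon
  have hδ : 0 < 1 - s.re := by linarith
  have hδa : 1 - s.re < a / 7 := by linarith
  -- the two points
  have hgr : ∀ u : ℝ, 1 ≤ |u| → |u| ≤ 2 * t → ∀ z ∈ closedBall (pt a u) ((1 + 1) * (R / 8)),
      ‖zetaPole z‖ ≤ Real.exp (11 * B * l) * ‖zetaPole (pt a u)‖ := by
    intro u hu hut z hz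
    have h1 := hgrow a (R / 2) u ha0' (by linarith) (by positivity) (by linarith) z
      (closedBall_subset_closedBall (by linarith) hz)
    refine h1.trans (mul_le_mul_of_nonneg_right (Real.exp_le_exp.2 ?_) (norm_nonneg _))
    have hsq : |u| + 3 ≤ t ^ 2 := by nlinarith
    have h2 : Real.log (|u| + 3) ≤ 2 * L := by
      have := Real.log_le_log (by linarith) hsq
      rw [Real.log_pow, ← hLdef] at this
      push_cast at this
      exact this
    have h3 : Real.log (|u| + 2) ≤ 2 * L :=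
      (Real.log_le_log (by linarith) (by linarith)).trans h2
    have h4 := vk_grow hl hLl ha0 hla0 hR ha h3 h2
    have h5 : (R / 2) ^ (3 / 2 : ℝ) * Real.log (|u| + 2) ≤ R ^ (3 / 2 : ℝ) * Real.log (|u| + 2) := by
      have h6 : 0 ≤ Real.log (|u| + 2) := Real.log_nonneg (by linarith)
      refine mul_le_mul_of_nonneg_right (Real.rpow_le_rpow (by positivity) (by linarith) (by norm_num)) h6
    calc B * ((R / 2) ^ (3 / 2 : ℝ) * Real.log (|u| + 2) + Real.log (Real.log (|u| + 3)) +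
          Real.log (1 / a) + 1) ≤ B * (11 * l) := by
          refine mul_le_mul_of_nonneg_left ?_ (by linarith)
          linarith
      _ = 11 * B * l := by ring
  have hG : 0 < 11 * B * l := by positivity
  have hst1 : 1 ≤ |s.im| := by rw [← ht]; linarith
  have h2t : |2 * s.im| = 2 * t := by rw [abs_mul, abs_two]
  have h1 := (hlan a (R / 8) s.im (11 * B * l) ha0' (by positivity) hG hst1
    (hgr s.im hst1 (by rw [← ht]; linarith))).2 s hz rfl (by linarith)
  have h2 := (hlan a (R / 8) (2 * s.im) (11 * B * l) ha0' (by positivity) hG (by rw [h2t]; linarith)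
    (hgr (2 * s.im) (by rw [h2t]; linarith) (by rw [h2t]))).1
  have h3 := hreal (1 + a) (by linarith) (by linarith)
  have h4 := lam_comb (σ := 1 + a) (by linarith) s.im
  have h5 : (1 + a : ℝ) - 1 = a := by ring
  rw [h5] at h3
  have e0 : ((1 + a : ℝ) : ℂ) + (s.im : ℂ) * I = pt a s.im := by simp [pt]
  have e1 : ((1 + a : ℝ) : ℂ) + ((2 * s.im : ℝ) : ℂ) * I = pt a (2 * s.im) := by simp [pt]
  rw [e0, e1] at h4
  have e2 : C * (11 * B * l) / (R / 8) = C * (11 * B) * 8 * a0 / 8 / a * 1 := by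
    rw [ha]
    field_simp
  have h6 : 4 * (1 / (a + (1 - s.re))) ≤ (3 + D * a0) / a := by
    have e3 : 1 + a - s.re = a + (1 - s.re) := by ring
    rw [e3] at h1
    have e4 : (3 + D * a0) / a = 3 * (1 / a) + (3 * C0 + 5) * (a0 / a) + 5 * (C * (11 * B) * 8 * (a0 / a)) := by
      rw [hD]
      field_simp
      ring
    have e5 : 1 ≤ a0 / a := by rw [le_div_iff₀ ha0']; linarith
    have e6 : C * (11 * B * l) / (R / 8) ≤ C * (11 * B) * 8 * (a0 / a) := by
      rw [e2]
      have : C * (11 * B) * 8 * a0 / 8 / a * 1 = C * (11 * B) * 8 * (a0 / a) / 8 := by ring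
      rw [this]
      exact div_le_self (by positivity) (by norm_num)
    have e7 : (3 * C0 + 5) * 1 ≤ (3 * C0 + 5) * (a0 / a) := by gcongr
    rw [e4]
    linarith
  have h7 := vk_end (y := 0) ha0' hδ hDa.le h6
  linarith

end Pool.Agent.H52.ZR
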