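import Mathlib
import Pool.Agent.H48.UP.Classical
import Pool.Agent.H52.ZR.VKF
import Pool.Agent.H76.RP.Defs

/-!
# Low: the Vinogradov-Korobov region at all heights

`vklam H = (log (H + 3))^(2/3) (1 + loglog (H + 3))^(1/3)`.
-/

set_option autoImplicit false

open Complex

namespace Pool.Agent.H52.ZR

/-- the Vinogradov-Korobov scale `(log (H + 3))^(2/3) (1 + loglog (H + 3))^(1/3)` -/
noncomputable def vklam (H : ℝ) : ℝ :=
  (Real.log (H + 3)) ^ (2 / 3 : ℝ) * (1 + Real.log (Real.log (H + 3))) ^ (1 / 3 : ℝ)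

private theorem log3 {H : ℝ} (hH : 0 ≤ H) : 1 ≤ Real.log (H + 3) := by
  rw [Real.le_log_iff_exp_le (by linarith)]
  have := Real.exp_one_lt_d9
  linarith

private theorem llog {H : ℝ} (hH : 0 ≤ H) : 0 ≤ Real.log (Real.log (H + 3)) :=
  Real.log_nonneg (log3 hH)

theorem vklam_ge {H : ℝ} (hH : 0 ≤ H) : 1 ≤ vklam H := by
  unfold vklam
  have h1 := log3 hH
  have h2 := llog hH
  have h3 : 1 ≤ (Real.log (H + 3)) ^ (2 / 3 : ℝ) := Real.one_le_rpow h1 (by norm_num)
  have h4 : 1 ≤ (1 + Real.log (Real.log (H + 3))) ^ (1 / 3 : ℝ) :=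
    Real.one_le_rpow (by linarith) (by norm_num)
  nlinarith

theorem vklam_mono {H H' : ℝ} (hH : 0 ≤ H) (h : H ≤ H') : vklam H ≤ vklam H' := by
  unfold vklam
  have h1 := log3 hH
  have h2 := llog hH
  have h3 : Real.log (H + 3) ≤ Real.log (H' + 3) := Real.log_le_log (by linarith) (by linarith)
  have h4 : Real.log (Real.log (H + 3)) ≤ Real.log (Real.log (H' + 3)) :=
    Real.log_le_log (by linarith) h3
  have h5 : 0 ≤ Real.log (H' + 3) := by linarith
  gcongr

/-- the zero-free region of Vinogradov and Korobov at all heights -/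
theorem vk_all : ∃ c : ℝ, 0 < c ∧ ∀ ρ : ℂ, riemannZeta ρ = 0 → 0 < ρ.re →
    c ≤ (1 - ρ.re) * vklam |ρ.im| := by
  obtain ⟨c1, hc1, hcl⟩ := Pool.Agent.H48.UP.classical
  obtain ⟨c2, T0, hc2, hT0, hvk⟩ := vk
  have hT : 0 < T0 := lt_of_lt_of_le (Real.exp_pos _) hT0
  have hlT : 0 < Real.log (2 + T0) := Real.log_pos (by linarith)
  refine ⟨min (c1 / Real.log (2 + T0)) c2, lt_min (by positivity) hc2, fun ρ hρ hre => ?_⟩
  have habs := abs_nonneg ρ.im
  rcases le_or_gt T0 |ρ.im| with h | h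
  · refine (min_le_right _ _).trans ?_
    have h1 := hvk ρ hρ h
    set t : ℝ := |ρ.im| with ht
    have hL : Real.exp 1 ≤ Real.log t := by
      rw [Real.le_log_iff_exp_le (by linarith)]
      linarith
    have hL0 : 0 < Real.log t := lt_of_lt_of_le (Real.exp_pos _) hL
    have hl : 1 ≤ Real.log (Real.log t) := by
      rw [Real.le_log_iff_exp_le hL0]
      exact hL
    set X : ℝ := (Real.log t) ^ (2 / 3 : ℝ) * (Real.log (Real.log t)) ^ (1 / 3 : ℝ) with hX
    have hX0 : 0 < X := by positivity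
    have h2 : c2 ≤ (1 - ρ.re) * X := by
      have h3 : c2 / X ≤ 1 - ρ.re := by linarith
      rwa [div_le_iff₀ hX0] at h3
    refine h2.trans ?_
    have h3 : 0 ≤ 1 - ρ.re := by
      have : 0 < c2 / X := by positivity
      linarith
    refine mul_le_mul_of_nonneg_left ?_ h3
    have h4 : Real.log t ≤ Real.log (t + 3) := Real.log_le_log (by linarith) (by linarith)
    have h5 : Real.log (Real.log t) ≤ Real.log (Real.log (t + 3)) := Real.log_le_log hL0 h4
    have h6 : Real.log (Real.log t) ≤ 1 + Real.log (Real.log (t + 3)) := by linarith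
    rw [hX]
    unfold vklam
    have h7 : 0 ≤ Real.log (Real.log t) := by linarith
    have h8 : 0 ≤ Real.log (t + 3) := by linarith
    have h9 : 0 ≤ (Real.log (t + 3)) ^ (2 / 3 : ℝ) := Real.rpow_nonneg h8 _
    gcongr
  · refine (min_le_left _ _).trans ?_
    have h1 := hcl ρ hρ hre
    have h2 : 0 < Real.log (2 + |ρ.im|) := Real.log_pos (by linarith)
    have h3 : c1 / Real.log (2 + T0) ≤ c1 / Real.log (2 + |ρ.im|) := by
      have : Real.log (2 + |ρ.im|) ≤ Real.log (2 + T0) := Real.log_le_log (by linarith) (by linarith)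
      gcongr
    have h4 : c1 / Real.log (2 + T0) ≤ 1 - ρ.re := by linarith
    have h5 := vklam_ge habs
    have h6 : 0 ≤ c1 / Real.log (2 + T0) := by positivity
    nlinarith

theorem vklam_succ {H : ℝ} (hH : 0 ≤ H) : vklam (H + 1) ≤ 2 * vklam H := by
  have h1 := log3 hH
  have h2 := llog hH
  have h3 : Real.log (H + 1 + 3) ≤ 2 * Real.log (H + 3) := by
    have := Real.log_le_log (by linarith : 0 < H + 1 + 3) (by nlinarith : H + 1 + 3 ≤ (H + 3) ^ 2)
    rw [Real.log_pow] at this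
    push_cast at this
    exact this
  have h4 : 1 + Real.log (Real.log (H + 1 + 3)) ≤ 2 * (1 + Real.log (Real.log (H + 3))) := by
    have h5 := log3 (by linarith : 0 ≤ H + 1)
    have h6 := Real.log_le_log (by linarith) h3
    rw [Real.log_mul (by norm_num) (by linarith)] at h6
    have h7 : Real.log 2 ≤ 1 := by linarith [Real.log_two_lt_d9]
    linarith
  have h5 := log3 (by linarith : 0 ≤ H + 1)
  have h6 := llog (by linarith : 0 ≤ H + 1)
  unfold vklam
  calc (Real.log (H + 1 + 3)) ^ (2 / 3 : ℝ) * (1 + Real.log (Real.log (H + 1 + 3))) ^ (1 / 3 : ℝ)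
      ≤ (2 * Real.log (H + 3)) ^ (2 / 3 : ℝ) * (2 * (1 + Real.log (Real.log (H + 3)))) ^ (1 / 3 : ℝ) := by
        gcongr
    _ = ((2 : ℝ) ^ (2 / 3 : ℝ) * (2 : ℝ) ^ (1 / 3 : ℝ)) * ((Real.log (H + 3)) ^ (2 / 3 : ℝ) *
          (1 + Real.log (Real.log (H + 3))) ^ (1 / 3 : ℝ)) := by
        rw [Real.mul_rpow (by norm_num) (by linarith), Real.mul_rpow (by norm_num) (by linarith)]
        ring
    _ = _ := by
        rw [← Real.rpow_add (by norm_num)]
        norm_num

/-- no zero with `Re u > 1 - r`, `|Im u| ≤ H + 1` when `r vklam H ≤ c` -/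
theorem low_free : ∃ c : ℝ, 0 < c ∧ c ≤ 1 ∧ ∀ r H : ℝ, 0 < r → 0 ≤ H → r * vklam H ≤ c →
    ∀ u : ℂ, riemannZeta u = 0 → 1 - r < u.re → |u.im| ≤ H + 1 → False := by
  obtain ⟨c, hc, h⟩ := vk_all
  refine ⟨min (c / 3) 1, lt_min (by positivity) one_pos, min_le_right _ _, ?_⟩
  intro r H hr hH hrH u hu h1 h2
  have h3 : r * vklam H ≤ c / 3 := hrH.trans (min_le_left _ _)
  have h4 : r * vklam H ≤ 1 := hrH.trans (min_le_right _ _)
  have h5 := vklam_ge hH
  have h6 : r ≤ 1 := by nlinarith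
  have h7 := h u hu (by linarith)
  have h8 := vklam_mono (abs_nonneg u.im) h2
  have h9 := vklam_succ hH
  have h10 : 0 ≤ 1 - u.re := by
    by_contra hcon
    exact riemannZeta_ne_zero_of_one_le_re (by linarith : 1 ≤ u.re) hu
  have h11 : (1 - u.re) * vklam |u.im| ≤ r * (2 * vklam H) := by
    have h12 : 0 ≤ vklam |u.im| := by linarith [vklam_ge (abs_nonneg u.im)]
    calc (1 - u.re) * vklam |u.im| ≤ r * vklam |u.im| :=
          mul_le_mul_of_nonneg_right (by linarith) h12
      _ ≤ r * (2 * vklam H) := mul_le_mul_of_nonneg_left (h8.trans h9) hr.le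
  linarith

open Pool.Agent.H76.RP in
/-- no zero in the disc of radius `r` around `1 + i t`, `|t| ≤ H` -/
theorem zc_low : ∃ c : ℝ, 0 < c ∧ c ≤ 1 ∧ ∀ r H t : ℝ, 0 < r → |t| ≤ H → r * vklam H ≤ c → zc r t = 0 := by
  obtain ⟨c, hc, hc1, h⟩ := low_free
  refine ⟨c, hc, hc1, fun r H t hr ht hrH => ?_⟩
  have hH : 0 ≤ H := (abs_nonneg t).trans ht
  have hv := vklam_ge hH
  have hr1 : r ≤ 1 := by nlinarith
  have he : disc r t = ∅ := by
    rw [Set.eq_empty_iff_forall_notMem]
    rintro u ⟨hu0, hun⟩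
    have e1 : (u - (1 + (t : ℂ) * I)).re = u.re - 1 := by simp
    have e2 : (u - (1 + (t : ℂ) * I)).im = u.im - t := by simp
    have h1 : |u.re - 1| < r := by
      rw [← e1]
      exact lt_of_le_of_lt (abs_re_le_norm _) hun
    have h2 : |u.im - t| < r := by
      rw [← e2]
      exact lt_of_le_of_lt (abs_im_le_norm _) hun
    refine h r H hr hH hrH u hu0 (by linarith [(abs_lt.1 h1).1]) ?_
    have h3 : |u.im| ≤ |u.im - t| + |t| := by
      have := abs_add_le (u.im - t) t
      rwa [sub_add_cancel] at this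
    linarith
  unfold zc
  rw [he]
  simp

end Pool.Agent.H52.ZR
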