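import Mathlib
import Pool.Agent.H52.RK.MainAG
import Pool.Agent.H52.RK.MainBG
import Pool.Agent.H52.ZR.Low

/-!
# Main: repulsion of zeros near the line `Re s = 1` inside a Vinogradov-Korobov window
-/

set_option autoImplicit false

open Complex

namespace Pool.Agent.H52.ZR

open Pool.Agent.H76.RP Pool.Agent.H52.RK

private theorem Phi_pos {r T : ℝ} (hr : 0 ≤ r) (hT : Real.exp (Real.exp 1) ≤ T) : 0 < Phi r T := by
  have hT0 : 0 < T := lt_of_lt_of_le (Real.exp_pos _) hT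
  have h1 : Real.exp 1 ≤ Real.log T := by
    rw [Real.le_log_iff_exp_le hT0]
    exact hT
  have h2 : 0 < Real.log T := lt_of_lt_of_le (Real.exp_pos _) h1
  have h3 : 1 ≤ Real.log (Real.log T) := by
    rw [Real.le_log_iff_exp_le h2]
    exact h1
  unfold Phi
  apply Real.log_pos
  have h4 : 0 ≤ r ^ (3 / 2 : ℝ) * Real.log T := mul_nonneg (Real.rpow_nonneg hr _) h2.le
  linarith

/-- two zeros near the line with ordinates in a short window are not both isolated -/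
theorem pairVK : ∃ c C : ℝ, 0 < c ∧ 1 ≤ C ∧ ∀ (r δ T H : ℝ) (ρ₁ ρ₂ : ℂ), 0 < δ → δ < r → C ≤ T →
    riemannZeta ρ₁ = 0 → 1 - δ ≤ ρ₁.re → 1 ≤ |ρ₁.im| → |ρ₁.im| ≤ T →
    riemannZeta ρ₂ = 0 → 1 - δ ≤ ρ₂.re → 1 ≤ |ρ₂.im| → |ρ₂.im| ≤ T →
    r ≤ |ρ₁.im - ρ₂.im| → |ρ₁.im - ρ₂.im| ≤ H → r * vklam H ≤ c →
    c * r / (δ * Phi r T) ≤ (zc r ρ₁.im : ℝ) + (zc r ρ₂.im : ℝ) := by
  obtain ⟨c1, C1, hc1, hC1, hA⟩ := mainA
  obtain ⟨c2, hc2, hc21, hlow⟩ := zc_low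
  refine ⟨min c1 c2, max C1 (Real.exp (Real.exp 1)), lt_min hc1 hc2, le_max_of_le_left hC1, ?_⟩
  intro r δ T H ρ₁ ρ₂ hδ hδr hTT hz1 hd1 hl1 ht1 hz2 hd2 hl2 ht2 hrd hdH hrH
  have hT : C1 ≤ T := (le_max_left _ _).trans hTT
  have hT2 : Real.exp (Real.exp 1) ≤ T := (le_max_right _ _).trans hTT
  have hr0 : 0 < r := by linarith
  have hH : 0 ≤ H := (abs_nonneg _).trans hdH
  have hrH2 : r * vklam H ≤ c2 := hrH.trans (min_le_right _ _)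
  have hr1 : r ≤ 1 := by
    have := vklam_ge hH
    nlinarith
  have hne : ρ₁ ≠ ρ₂ := by
    rintro rfl
    rw [sub_self, abs_zero] at hrd
    linarith
  have hmem : ∀ ρ ∈ ({ρ₁, ρ₂} : Finset ℂ), ρ = ρ₁ ∨ ρ = ρ₂ := by
    intro ρ hρ
    simpa using hρ
  have h := hA r δ T {ρ₁, ρ₂} hδ hδr hr1 hT (by rw [Finset.card_pair hne]) ?_ ?_
  · rw [Finset.card_pair hne, Finset.sum_pair hne, Finset.sum_pair hne, Finset.sum_pair hne,
      Finset.sum_pair hne, if_pos rfl, if_neg hne, if_neg hne.symm, if_pos rfl,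
      hlow r H (ρ₁.im - ρ₂.im) hr0 hdH hrH2,
      hlow r H (ρ₂.im - ρ₁.im) hr0 (by rw [abs_sub_comm]; exact hdH) hrH2] at h
    push_cast at h
    have h0 : 0 ≤ (zc r ρ₁.im : ℝ) := Nat.cast_nonneg _
    have h0' : 0 ≤ (zc r ρ₂.im : ℝ) := Nat.cast_nonneg _
    have h1 : c1 * r / (δ * Phi r T) ≤ (zc r ρ₁.im : ℝ) + (zc r ρ₂.im : ℝ) := by
      have e : ((zc r ρ₁.im : ℝ) + (zc r ρ₂.im : ℝ)) / 2 + (0 + 0 + (0 + 0)) / 2 ^ 2 =
          ((zc r ρ₁.im : ℝ) + (zc r ρ₂.im : ℝ)) / 2 := by ring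
      linarith
    refine le_trans ?_ h1
    have hPhi : 0 < Phi r T := Phi_pos hr0.le hT2
    gcongr
    exact min_le_left _ _
  · intro ρ hρ
    rcases hmem ρ hρ with rfl | rfl
    · exact ⟨hz1, hd1, hl1, ht1⟩
    · exact ⟨hz2, hd2, hl2, ht2⟩
  · intro ρ hρ ρ' hρ' hn
    rcases hmem ρ hρ with rfl | rfl <;> rcases hmem ρ' hρ' with rfl | rfl
    · exact absurd rfl hn
    · exact hrd
    · rw [abs_sub_comm]
      exact hrd
    · exact absurd rfl hn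

/-- an isolated zero repels the other isolated zeros of a short window -/
theorem dhVK : ∃ c C : ℝ, 0 < c ∧ 1 ≤ C ∧ ∀ (r T H : ℝ) (ρ₁ ρ₂ : ℂ), 0 < r → C ≤ T →
    riemannZeta ρ₁ = 0 → riemannZeta ρ₂ = 0 → 0 < ρ₁.re → 0 < ρ₂.re →
    1 ≤ |ρ₁.im| → |ρ₁.im| ≤ T → 1 ≤ |ρ₂.im| → |ρ₂.im| ≤ T →
    r ≤ |ρ₂.im - ρ₁.im| → |ρ₂.im - ρ₁.im| ≤ H → r * vklam H ≤ c →
    zc r ρ₁.im ≤ 1 → zc r ρ₂.im ≤ 1 →
    c * r * min 1 (Real.log (c * r / ((1 - ρ₁.re) * Phi r T)) / Phi r T) ≤ 1 - ρ₂.re := by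
  obtain ⟨c1, C1, hc1, hC1, hB⟩ := mainB
  obtain ⟨c2, hc2, hc21, hlow⟩ := zc_low
  refine ⟨min c1 c2, max C1 (Real.exp (Real.exp 1)), lt_min hc1 hc2, le_max_of_le_left hC1, ?_⟩
  intro r T H ρ₁ ρ₂ hr0 hTT hz1 hz2 hp1 hp2 hl1 ht1 hl2 ht2 hrd hdH hrH hi1 hi2
  have hT : C1 ≤ T := (le_max_left _ _).trans hTT
  have hT2 : Real.exp (Real.exp 1) ≤ T := (le_max_right _ _).trans hTT
  have hH : 0 ≤ H := (abs_nonneg _).trans hdH
  have hrH2 : r * vklam H ≤ c2 := hrH.trans (min_le_right _ _)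
  have hr1 : r ≤ 1 := by
    have := vklam_ge hH
    nlinarith
  have hPhi : 0 < Phi r T := Phi_pos hr0.le hT2
  have h := hB r T ρ₁ ρ₂ hr0 hr1 hT hz1 hz2 hp1 hp2 hl1 ht1 hl2 ht2 hrd hi1 hi2
    (hlow r H (ρ₂.im - ρ₁.im) hr0 hdH hrH2)
  have hd1 : 0 < 1 - ρ₁.re := by
    by_contra hcon
    exact riemannZeta_ne_zero_of_one_le_re (by linarith : 1 ≤ ρ₁.re) hz1
  have hd2 : 0 < 1 - ρ₂.re := by
    by_contra hcon
    exact riemannZeta_ne_zero_of_one_le_re (by linarith : 1 ≤ ρ₂.re) hz2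
  set c : ℝ := min c1 c2 with hc
  have hc0 : 0 < c := lt_min hc1 hc2
  have hcc : c ≤ c1 := min_le_left _ _
  have hX : 0 < c * r / ((1 - ρ₁.re) * Phi r T) := by positivity
  have hX1 : c * r / ((1 - ρ₁.re) * Phi r T) ≤ c1 * r / ((1 - ρ₁.re) * Phi r T) := by gcongr
  have hlog := Real.log_le_log hX hX1
  rcases le_or_gt (Real.log (c * r / ((1 - ρ₁.re) * Phi r T))) 0 with hneg | hpos
  · have h1 : Real.log (c * r / ((1 - ρ₁.re) * Phi r T)) / Phi r T ≤ 0 :=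
      div_nonpos_of_nonpos_of_nonneg hneg hPhi.le
    have h2 : min 1 (Real.log (c * r / ((1 - ρ₁.re) * Phi r T)) / Phi r T) ≤ 0 :=
      (min_le_right _ _).trans h1
    have h3 : c * r * min 1 (Real.log (c * r / ((1 - ρ₁.re) * Phi r T)) / Phi r T) ≤ 0 :=
      mul_nonpos_of_nonneg_of_nonpos (by positivity) h2
    linarith
  · refine le_trans ?_ h
    have h1 : Real.log (c * r / ((1 - ρ₁.re) * Phi r T)) / Phi r T ≤
        Real.log (c1 * r / ((1 - ρ₁.re) * Phi r T)) / Phi r T := by gcongr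
    have h2 : min 1 (Real.log (c * r / ((1 - ρ₁.re) * Phi r T)) / Phi r T) ≤
        min 1 (Real.log (c1 * r / ((1 - ρ₁.re) * Phi r T)) / Phi r T) := min_le_min le_rfl h1
    have h3 : 0 ≤ min 1 (Real.log (c * r / ((1 - ρ₁.re) * Phi r T)) / Phi r T) :=
      le_min zero_le_one (div_nonneg hpos.le hPhi.le)
    exact mul_le_mul (mul_le_mul_of_nonneg_right hcc hr0.le) h2 h3 (by positivity)

end Pool.Agent.H52.ZR
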