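import Mathlib
import Pool.Agent.H52.ZR.Main

/-!
# Repulsion of zeros of the zeta function near the line `Re s = 1` (draft of the hand-in)

`zc r t` (`Pool/Agent/H76/RP/Defs.lean`) is the number, with multiplicity, of the zeros `u` of `ζ` with
`|u - (1 + it)| < r`; `zlow r H` (there) the number, with multiplicity, of those with `Re u > 1 - r`,
`|Im u| ≤ H`; `Phi r T = log (2 + r^(3/2) log T + loglog T)` (`Pool/Agent/H52/RK/MainAG.lean`);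
`vklam H = (log (H + 3))^(2/3) (1 + loglog (H + 3))^(1/3)` (`Pool/Agent/H52/ZR/Low.lean`).
-/

set_option autoImplicit false

open Complex

namespace Pool.Agent.H52.ZR

open Pool.Agent.H76.RP Pool.Agent.H52.RK

theorem result :
    (∃ c C : ℝ, 0 < c ∧ 1 ≤ C ∧ ∀ (r δ T H : ℝ) (ρ₁ ρ₂ : ℂ), 0 < δ → δ < r → C ≤ T →
      riemannZeta ρ₁ = 0 → 1 - δ ≤ ρ₁.re → 1 ≤ |ρ₁.im| → |ρ₁.im| ≤ T →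
      riemannZeta ρ₂ = 0 → 1 - δ ≤ ρ₂.re → 1 ≤ |ρ₂.im| → |ρ₂.im| ≤ T →
      r ≤ |ρ₁.im - ρ₂.im| → |ρ₁.im - ρ₂.im| ≤ H → r * vklam H ≤ c →
      c * r / (δ * Phi r T) ≤ (zc r ρ₁.im : ℝ) + (zc r ρ₂.im : ℝ)) ∧
    (∃ c C : ℝ, 0 < c ∧ 1 ≤ C ∧ ∀ (r T H : ℝ) (ρ₁ ρ₂ : ℂ), 0 < r → C ≤ T →
      riemannZeta ρ₁ = 0 → riemannZeta ρ₂ = 0 → 0 < ρ₁.re → 0 < ρ₂.re →
      1 ≤ |ρ₁.im| → |ρ₁.im| ≤ T → 1 ≤ |ρ₂.im| → |ρ₂.im| ≤ T →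
      r ≤ |ρ₂.im - ρ₁.im| → |ρ₂.im - ρ₁.im| ≤ H → r * vklam H ≤ c →
      zc r ρ₁.im ≤ 1 → zc r ρ₂.im ≤ 1 →
      c * r * min 1 (Real.log (c * r / ((1 - ρ₁.re) * Phi r T)) / Phi r T) ≤ 1 - ρ₂.re) ∧
    (∃ c C : ℝ, 0 < c ∧ 1 ≤ C ∧ ∀ (r δ T : ℝ) (S : Finset ℂ), 0 < δ → δ < r →
      r ≤ 1 → C ≤ T → 2 ≤ S.card →
      (∀ ρ ∈ S, riemannZeta ρ = 0 ∧ 1 - δ ≤ ρ.re ∧ 1 ≤ |ρ.im| ∧ |ρ.im| ≤ T) →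
      (∀ ρ ∈ S, ∀ ρ' ∈ S, ρ ≠ ρ' → r ≤ |ρ.im - ρ'.im|) →
      c * r / (δ * Phi r T) ≤
        (∑ ρ ∈ S, (zc r ρ.im : ℝ)) / S.card +
        (∑ ρ ∈ S, ∑ ρ' ∈ S, (if ρ = ρ' then 0 else (zc r (ρ.im - ρ'.im) : ℝ))) / S.card ^ 2) ∧
    (∃ c C : ℝ, 0 < c ∧ 1 ≤ C ∧ ∀ (r δ T H : ℝ) (S : Finset ℂ), 0 < δ → δ < r →
      r ≤ 1 → C ≤ T →
      (∀ ρ ∈ S, riemannZeta ρ = 0 ∧ 1 - δ ≤ ρ.re ∧ 1 ≤ |ρ.im| ∧ |ρ.im| ≤ T ∧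
        (zc r ρ.im : ℝ) ≤ c * r / (δ * Phi r T)) →
      (∀ ρ ∈ S, ∀ ρ' ∈ S, ρ ≠ ρ' → r ≤ |ρ.im - ρ'.im|) →
      (∀ ρ ∈ S, ∀ ρ' ∈ S, |ρ.im - ρ'.im| ≤ H) →
      (S.card : ℝ) ≤ max 1 (C * (δ * Phi r T / r) * zlow r (H + 1))) ∧
    (∃ c C : ℝ, 0 < c ∧ 1 ≤ C ∧ ∀ (r T : ℝ) (ρ₁ ρ₂ : ℂ), 0 < r → r ≤ 1 → C ≤ T →
      riemannZeta ρ₁ = 0 → riemannZeta ρ₂ = 0 → 0 < ρ₁.re → 0 < ρ₂.re →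
      1 ≤ |ρ₁.im| → |ρ₁.im| ≤ T → 1 ≤ |ρ₂.im| → |ρ₂.im| ≤ T → r ≤ |ρ₂.im - ρ₁.im| →
      zc r ρ₁.im ≤ 1 → zc r ρ₂.im ≤ 1 → zc r (ρ₂.im - ρ₁.im) = 0 →
      c * r * min 1 (Real.log (c * r / ((1 - ρ₁.re) * Phi r T)) / Phi r T) ≤ 1 - ρ₂.re) :=
  ⟨pairVK, dhVK, mainA, mainW, mainB⟩

end Pool.Agent.H52.ZR
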